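import Pool.Agent.P.MP_f05dbc_gt.Asm

namespace Pool.Agent.P.MP_f05dbc_gt.Old.ExtEZ

open Pool.Agent.P.MP_f05dbc_gt

theorem result {G : Type*} [Group G] (hG : HasModel G) (N : Subgroup G)
    {X : Type} [TopologicalSpace X] (Z₀ : Set X) (c : N →* (↥Z₀ᶜ ≃ₜ ↥Z₀ᶜ)) (hc : IsGeom Z₀ c)
    (hc' : ConjExtends N Z₀ c)
    {Y : Type} [TopologicalSpace Y] (Z : Set Y) (b : G →* (↥Zᶜ ≃ₜ ↥Zᶜ)) (hb : IsCoGeom N Z b)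
    (hb' : Extends b) : HasEZ G := by
  obtain ⟨W, _, Z₁, a, h1, h2, h3⟩ := closure_top (e := True) hG hc hb fun _ => ⟨hc', hb'⟩
  exact ⟨W, _, Z₁, a, h1, h2, h3 trivial⟩

end Pool.Agent.P.MP_f05dbc_gt.Old.ExtEZ
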